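import Pool.Agent.H4.AM.Targets

/-!
# Module F3: the bijection between `Irr T` and the irreducible characters of `X` above `lam`
-/

open scoped Classical

namespace AMx

section basics

variable {G : Type} [Group G] [Fintype G]

theorem CF.inv' {a : G → ℂ} (h : CF a) : CF (fun x => a x⁻¹) := by
  intro g x
  have : (g * x * g⁻¹)⁻¹ = g * x⁻¹ * g⁻¹ := by group
  simp only [this]
  exact h g x⁻¹

theorem CF.conv' {a b : G → ℂ} (ha : CF a) (hb : CF b) : CF (conv a b) := by
  intro g x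
  unfold AMx.conv
  rw [← Equiv.sum_comp (MulAut.conj g).toEquiv]
  apply Finset.sum_congr rfl
  intro y _
  have h1 : (MulAut.conj g).toEquiv y = g * y * g⁻¹ := by simp [MulAut.conj_apply]
  rw [h1, ha g y]
  have h2 : (g * y * g⁻¹)⁻¹ * (g * x * g⁻¹) = g * (y⁻¹ * x) * g⁻¹ := by group
  rw [h2, hb]

theorem sum_conj (g : G) (f : G → ℂ) : ∑ x, f (g * x * g⁻¹) = ∑ x, f x := by
  simpa [MulAut.conj_apply] using Equiv.sum_comp (MulAut.conj g).toEquiv f

theorem sum_inv' (f : G → ℂ) : ∑ x, f x⁻¹ = ∑ x, f x :=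
  Equiv.sum_comp (Equiv.inv G) f

/-- two class functions with the same pairings are equal -/
theorem CF.ext_pair {f f' : G → ℂ} (hf : CF f) (hf' : CF f')
    (h : ∀ a, CF a → ∑ x, a x * f x = ∑ x, a x * f' x) : f = f' := by
  funext x
  set a : G → ℂ := fun y => ∑ g : G, if g * x * g⁻¹ = y then 1 else 0 with ha
  have hCF : CF a := by
    intro g y
    simp only [ha]
    rw [← Equiv.sum_comp (Equiv.mulLeft g)]
    apply Finset.sum_congr rfl
    intro z _
    have : (Equiv.mulLeft g) z * x * ((Equiv.mulLeft g) z)⁻¹ = g * y * g⁻¹ ↔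
        z * x * z⁻¹ = y := by
      simp only [Equiv.coe_mulLeft]
      constructor
      · intro h
        have h2 : g * (z * x * z⁻¹) * g⁻¹ = g * y * g⁻¹ := by
          rw [← h]; group
        exact mul_left_cancel (mul_right_cancel h2)
      · rintro rfl; group
    simp only [this]
  have key : ∀ k : G → ℂ, CF k → ∑ y, a y * k y = (Fintype.card G : ℂ) * k x := by
    intro k hk
    simp only [ha, Finset.sum_mul]
    rw [Finset.sum_comm]
    have : ∀ g : G, ∑ y, (if g * x * g⁻¹ = y then (1 : ℂ) else 0) * k y = k x := by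
      intro g
      rw [Finset.sum_eq_single (g * x * g⁻¹)]
      · rw [if_pos rfl, one_mul, hk]
      · intro y _ hy
        rw [if_neg (Ne.symm hy), zero_mul]
      · intro h; exact absurd (Finset.mem_univ _) h
    rw [Finset.sum_congr rfl fun g _ => this g, Finset.sum_const, Finset.card_univ, nsmul_eq_mul]
  have h1 := h a hCF
  rw [key f hf, key f' hf'] at h1
  have hne : (Fintype.card G : ℂ) ≠ 0 := by
    exact_mod_cast Fintype.card_ne_zero
  exact mul_left_cancel₀ hne h1

end basics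

namespace Fr

variable {ℓ : ℕ} {X T : Type} [Group X] [Group T] [Fintype X] [Fintype T] (F : Fr ℓ X T)

include F in
theorem card_V_ne : (Nat.card F.V : ℂ) ≠ 0 := by
  have : 0 < Nat.card F.V := Nat.card_pos
  exact_mod_cast this.ne'

theorem mem_mul_iff {v : X} (hv : v ∈ F.V) (x : X) : v * x ∈ F.V ↔ x ∈ F.V :=
  Subgroup.mul_mem_cancel_left _ hv

theorem lam_mul' {v : X} (hv : v ∈ F.V) (x : X) : F.lam (v * x) = F.lam v * F.lam x := by
  by_cases hx : x ∈ F.V
  · exact F.lam_mul v hv x hx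
  · rw [F.lam_off x hx, mul_zero, F.lam_off]
    rw [F.mem_mul_iff hv]
    exact hx

theorem conj_mem (y : X) {x : X} : y * x * y⁻¹ ∈ F.V ↔ x ∈ F.V := by
  constructor
  · intro h
    have := F.norm.conj_mem _ h y⁻¹
    have e : y⁻¹ * (y * x * y⁻¹) * y⁻¹⁻¹ = x := by group
    rwa [e] at this
  · intro h
    exact F.norm.conj_mem _ h y

/-- `io t` stabilises `lam` -/
theorem lam_io (t : T) (x : X) : F.lam (F.io t * x * (F.io t)⁻¹) = F.lam x := by
  by_cases hx : x ∈ F.V
  · exact (F.stab (F.io t)).mpr ⟨1, F.V.one_mem, t, by simp⟩ x hx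
  · rw [F.lam_off x hx, F.lam_off]
    rw [F.conj_mem]; exact hx

theorem lam_io' (t : T) (x : X) : F.lam ((F.io t)⁻¹ * x * F.io t) = F.lam x := by
  have := F.lam_io t⁻¹ x
  rwa [map_inv, inv_inv] at this

/-- the translate sums -/
theorem L_off {a : X → ℂ} (ha : CF a) {x : X} (hx : ¬ ∃ v ∈ F.V, ∃ t, x = v * F.io t)
    (h0 : ∀ v ∈ F.V, F.lam v * F.lam v⁻¹ = 1) :
    ∑ v, a (x * v) * F.lam v = 0 := by
  have hst := (not_congr (F.stab x)).mpr hx
  push Not at hst
  obtain ⟨v0, hv0, hne⟩ := hst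
  set w := x * v0 * x⁻¹ with hw
  have hwV : w ∈ F.V := (F.conj_mem x).mpr hv0
  set c := v0 * w⁻¹ with hc
  have hcV : c ∈ F.V := F.V.mul_mem hv0 (F.V.inv_mem hwV)
  have hac : ∀ v ∈ F.V, a (x * (v * c)) = a (x * v) := by
    intro v hv
    have h1 := ha w (x * v)
    rw [← h1]
    congr 1
    have h2 : w * (x * v) * w⁻¹ = x * (v0 * v * w⁻¹) := by
      rw [hw]; group
    rw [h2, hc, F.comm v0 hv0 v hv, mul_assoc v v0 w⁻¹]
  have hlc : F.lam c⁻¹ ≠ 1 := by
    intro h
    apply hne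
    have h1 : c⁻¹ = w * v0⁻¹ := by rw [hc]; group
    rw [h1, F.lam_mul w hwV v0⁻¹ (F.V.inv_mem hv0)] at h
    have h2 := h0 v0 hv0
    calc F.lam w = F.lam w * (F.lam v0 * F.lam v0⁻¹) := by rw [h2, mul_one]
      _ = (F.lam w * F.lam v0⁻¹) * F.lam v0 := by ring
      _ = F.lam v0 := by rw [h, one_mul]
  have h3 : ∑ v, a (x * v) * F.lam v = F.lam c⁻¹ * ∑ v, a (x * v) * F.lam v := by
    conv_lhs => rw [← Equiv.sum_comp (Equiv.mulRight c⁻¹)]
    rw [Finset.mul_sum]
    apply Finset.sum_congr rfl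
    intro v _
    simp only [Equiv.coe_mulRight]
    by_cases hv : v ∈ F.V
    · have h4 := hac (v * c⁻¹) (F.V.mul_mem hv (F.V.inv_mem hcV))
      rw [inv_mul_cancel_right] at h4
      rw [← h4, F.comm v hv c⁻¹ (F.V.inv_mem hcV), F.lam_mul' (F.V.inv_mem hcV)]
      ring
    · rw [F.lam_off v hv, F.lam_off (v * c⁻¹)]
      · ring
      · rw [Subgroup.mul_mem_cancel_right _ (F.V.inv_mem hcV)]
        exact hv
  have h4 : (1 - F.lam c⁻¹) * ∑ v, a (x * v) * F.lam v = 0 := by
    rw [sub_mul, one_mul, ← h3, sub_self]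
  rcases mul_eq_zero.mp h4 with h5 | h5
  · exact absurd (sub_eq_zero.mp h5).symm hlc
  · exact h5

theorem L_on {a : X → ℂ} {w : X} (hw : w ∈ F.V) (t : T) :
    ∑ v, a (w * F.io t * v) * F.lam v = F.lam w⁻¹ * F.ph a t := by
  rw [ph, Finset.mul_sum]
  rw [← Equiv.sum_comp (MulAut.conj (F.io t)⁻¹).toEquiv]
  rw [← Equiv.sum_comp (Equiv.mulLeft w⁻¹)]
  apply Finset.sum_congr rfl
  intro v _
  have h1 : (MulAut.conj (F.io t)⁻¹).toEquiv ((Equiv.mulLeft w⁻¹) v) =
      (F.io t)⁻¹ * (w⁻¹ * v) * F.io t := by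
    simp [MulAut.conj_apply]
  rw [h1, F.lam_io', F.lam_mul' (F.V.inv_mem hw)]
  have h2 : w * F.io t * ((F.io t)⁻¹ * (w⁻¹ * v) * F.io t) = v * F.io t := by group
  rw [h2]; ring

theorem L_eq {a : X → ℂ} (ha : CF a) (h0 : ∀ v ∈ F.V, F.lam v * F.lam v⁻¹ = 1) (x : X) :
    ∑ v, a (x * v) * F.lam v = ∑ t, F.lam (x * (F.io t)⁻¹)⁻¹ * F.ph a t := by
  by_cases hx : ∃ v ∈ F.V, ∃ t, x = v * F.io t
  · obtain ⟨w, hw, t0, rfl⟩ := hx
    rw [F.L_on hw t0, Finset.sum_eq_single t0]
    · rw [mul_inv_cancel_right]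
    · intro t _ ht
      rw [F.lam_off, zero_mul]
      intro hmem
      apply ht
      have h1 := F.V.inv_mem hmem
      rw [inv_inv, mul_assoc, F.mem_mul_iff hw, ← map_inv, ← map_mul] at h1
      have h2 := F.disj _ h1
      exact (mul_inv_eq_one.mp h2).symm
    · intro h; exact absurd (Finset.mem_univ _) h
  · rw [F.L_off ha hx h0, Finset.sum_eq_zero]
    intro t _
    rw [F.lam_off, zero_mul]
    intro hmem
    apply hx
    have h1 := F.V.inv_mem hmem
    rw [inv_inv] at h1
    exact ⟨_, h1, t, by group⟩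

theorem th_one (ψ : T → ℂ) (x : X) : F.th (fun t => if t = 1 then 1 else 0) x = F.lam x := by
  rw [th, Finset.sum_eq_single 1]
  · simp
  · intro t _ ht; simp [ht]
  · intro h; exact absurd (Finset.mem_univ _) h

end Fr

/-- F3 -/
theorem f3 (hC1 : T_C1) (hC2 : T_C2) (hF0 : T_F0) (hF1 : T_F1) (hF2 : T_F2) : T_F3 := by
  intro ℓ X T _ _ _ _ F
  obtain ⟨a0, a1, a2, a3, a4, a5, a6⟩ := hF0 ℓ X T F
  obtain ⟨b1, b2, b3, b4, b5, b6⟩ := hF1 ℓ X T F
  have h0 : ∀ v ∈ F.V, F.lam v * F.lam v⁻¹ = 1 := fun v hv => (a2 v hv).2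
  have hn : (Nat.card F.V : ℂ) ≠ 0 := F.card_V_ne
  have hix : (F.ix : ℂ) ≠ 0 := by exact_mod_cast a1.ne'
  have hcardX : (Nat.card X : ℂ) = F.ix * (Nat.card F.V * Nat.card T) := by
    rw [← a0]; push_cast; ring
  have hTne : (Nat.card T : ℂ) ≠ 0 := by
    have : 0 < Nat.card T := Nat.card_pos
    exact_mod_cast this.ne'
  have hXne : (Nat.card X : ℂ) ≠ 0 := by
    have : 0 < Nat.card X := Nat.card_pos
    exact_mod_cast this.ne'
  -- recover'
  have rec' : ∀ ψ : T → ℂ, CF ψ → ∀ t, F.ph (fun x => F.ind ψ x⁻¹) t =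
      Nat.card F.V * ψ t⁻¹ := by
    intro ψ hψ t
    rw [← b4 ψ hψ t⁻¹, Fr.ph]
    rw [← sum_inv' (fun x => F.lam x⁻¹ * F.ind ψ (x * F.io t⁻¹))]
    apply Finset.sum_congr rfl
    intro x _
    have h1 := b1 ψ x⁻¹ ((x * F.io t)⁻¹)
    have h2 : x⁻¹ * (x * F.io t)⁻¹ * x⁻¹⁻¹ = x⁻¹ * F.io t⁻¹ := by
      rw [map_inv]; group
    rw [h2] at h1
    rw [inv_inv, ← h1]; ring
  have normcomp : ∀ ψ : T → ℂ, CF ψ → ∑ x, F.ind ψ x * F.ind ψ x⁻¹ =
      F.ix * Nat.card F.V * ∑ t, ψ t * ψ t⁻¹ := by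
    intro ψ hψ
    have h1 := b3 ψ (fun x => F.ind ψ x⁻¹) (b1 ψ).inv'
    rw [Finset.sum_congr rfl fun x _ => mul_comm (F.ind ψ x) (F.ind ψ x⁻¹), h1, mul_assoc,
      Finset.mul_sum (s := Finset.univ) (a := (Nat.card F.V : ℂ))]
    congr 1
    apply Finset.sum_congr rfl
    intro t _
    rw [rec' ψ hψ t]; ring
  refine ⟨?_, ?_, ?_⟩
  · -- (i)
    intro ψ hψ
    have hI := (hC1 T ψ hψ).1
    refine ⟨hC2 X _ ?_, ?_⟩
    · refine ⟨?_, b1 ψ, ?_, ?_⟩
      · obtain ⟨r, hr, hr1⟩ := hI.pos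
        refine ⟨F.ix * r, mul_pos (by exact_mod_cast a1) hr, ?_⟩
        rw [b2, hr1]; push_cast; ring
      · intro a b ha hb
        rw [b3 ψ _ (ha.conv' hb), b3 ψ a ha, b3 ψ b hb, b2, hF2 ℓ X T F a b ha hb]
        have := hI.mul (F.ph a) (F.ph b) (b5 a ha) (b5 b hb)
        linear_combination (F.ix : ℂ) * F.ix * this
      · rw [normcomp ψ hI.cf, hI.norm, hcardX]; ring
    · have := b4 ψ hI.cf 1
      rw [map_one] at this
      simpa using this
  · -- (ii)
    intro ψ hψ ψ' hψ' h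
    funext t
    have h1 := b4 ψ (hC1 T ψ hψ).1.cf t
    have h2 := b4 ψ' (hC1 T ψ' hψ').1.cf t
    rw [h, h2] at h1
    exact (mul_left_cancel₀ hn h1).symm
  · -- (iii)
    intro χ hχ hne
    have hI := (hC1 X χ hχ).1
    set ψ : T → ℂ := fun t => (∑ x, F.lam x⁻¹ * χ (x * F.io t)) / Nat.card F.V with hψ
    have hψt : ∀ t, ∑ x, F.lam x⁻¹ * χ (x * F.io t) = Nat.card F.V * ψ t := by
      intro t
      rw [hψ]; field_simp
    have hψ1 : ∑ x, F.lam x⁻¹ * χ x = Nat.card F.V * ψ 1 := by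
      rw [← hψt 1, map_one]; simp
    have hψ1ne : ψ 1 ≠ 0 := by
      intro h
      rw [h, mul_zero] at hψ1
      exact hne hψ1
    have hψCF : CF ψ := by
      intro s t
      simp only [hψ]
      congr 1
      rw [← Equiv.sum_comp (MulAut.conj (F.io s)).toEquiv]
      apply Finset.sum_congr rfl
      intro x _
      have h1 : (MulAut.conj (F.io s)).toEquiv x = F.io s * x * (F.io s)⁻¹ := by
        simp [MulAut.conj_apply]
      rw [h1]
      have h2 : (F.io s * x * (F.io s)⁻¹)⁻¹ = F.io s * x⁻¹ * (F.io s)⁻¹ := by group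
      rw [h2, F.lam_io]
      have h3 : F.io s * x * (F.io s)⁻¹ * F.io (s * t * s⁻¹) =
          F.io s * (x * F.io t) * (F.io s)⁻¹ := by
        simp only [map_mul, map_inv]; group
      rw [h3, hI.cf]
    -- the class function G
    set δ : T → ℂ := fun t => if t = 1 then 1 else 0 with hδ
    have hδCF : CF δ := by
      intro s t
      simp only [hδ]
      have : s * t * s⁻¹ = 1 ↔ t = 1 := by
        constructor
        · intro h
          have h2 : s * t = s := by rw [mul_inv_eq_one] at h; exact h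
          exact mul_left_cancel (h2.trans (mul_one s).symm)
        · rintro rfl; group
      simp only [this]
    set G : X → ℂ := fun x => ∑ y, F.lam (y * x⁻¹ * y⁻¹) with hG
    have hGind : ∀ x, G x = (Nat.card F.V * Nat.card T) * F.ind δ x⁻¹ := by
      intro x
      simp only [hG, Fr.ind, hδ]
      rw [Finset.sum_congr rfl fun y _ => F.th_one (fun _ => 0) (y * x⁻¹ * y⁻¹)]
      field_simp
    have hGCF : CF G := by
      intro g x
      rw [hGind, hGind]
      have : (g * x * g⁻¹)⁻¹ = g * x⁻¹ * g⁻¹ := by group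
      rw [this, b1 δ]
    have hphG : ∀ t, F.ph G t = Nat.card F.V * Nat.card T * Nat.card F.V * δ t := by
      intro t
      have h1 : F.ph G t = (Nat.card F.V * Nat.card T) * F.ph (fun x => F.ind δ x⁻¹) t := by
        simp only [Fr.ph, Finset.mul_sum]
        apply Finset.sum_congr rfl
        intro x _
        rw [hGind]; ring
      rw [h1, rec' δ hδCF t]
      have : δ t⁻¹ = δ t := by simp [hδ]
      rw [this]; ring
    -- convolution with G
    have hconvG : ∀ a : X → ℂ, CF a → ∀ x, conv a G x =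
        ∑ z, ∑ t, F.lam ((z * x * z⁻¹) * (F.io t)⁻¹)⁻¹ * F.ph a t := by
      intro a ha x
      simp only [conv, hG, Finset.mul_sum]
      rw [Finset.sum_comm]
      apply Finset.sum_congr rfl
      intro z _
      rw [← F.L_eq ha h0 (z * x * z⁻¹)]
      rw [← Equiv.sum_comp (Equiv.mulLeft (x * z⁻¹))]
      rw [← Equiv.sum_comp (Equiv.mulRight z)]
      apply Finset.sum_congr rfl
      intro v _
      simp only [Equiv.coe_mulLeft, Equiv.coe_mulRight]
      have h1 : z * ((x * z⁻¹ * (v * z))⁻¹ * x)⁻¹ * z⁻¹ = v := by group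
      rw [h1]
      have h2 := ha z (x * z⁻¹ * (v * z))
      have h3 : z * (x * z⁻¹ * (v * z)) * z⁻¹ = z * x * z⁻¹ * v := by group
      rw [h3] at h2
      rw [← h2]
    have hsumG : ∀ a : X → ℂ, CF a → ∑ x, conv a G x * χ x =
        Nat.card X * (Nat.card F.V * ∑ t, F.ph a t * ψ t) := by
      intro a ha
      rw [Finset.sum_congr rfl fun x _ => by rw [hconvG a ha x]]
      simp only [Finset.sum_mul]
      rw [Finset.sum_comm]
      have h1 : ∀ z : X, ∑ x, ∑ t, F.lam (z * x * z⁻¹ * (F.io t)⁻¹)⁻¹ * F.ph a t * χ x =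
          Nat.card F.V * ∑ t, F.ph a t * ψ t := by
        intro z
        have h2 : ∑ x, ∑ t, F.lam (z * x * z⁻¹ * (F.io t)⁻¹)⁻¹ * F.ph a t * χ x =
            ∑ x, ∑ t, F.lam (x * (F.io t)⁻¹)⁻¹ * F.ph a t * χ x := by
          rw [← sum_conj z (fun x => ∑ t, F.lam (x * (F.io t)⁻¹)⁻¹ * F.ph a t * χ x)]
          apply Finset.sum_congr rfl
          intro x _
          rw [hI.cf]
        rw [h2, Finset.sum_comm, Finset.mul_sum]
        apply Finset.sum_congr rfl
        intro t _
        have h3 := hψt t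
        rw [← Equiv.sum_comp (Equiv.mulRight (F.io t))]
        simp only [Equiv.coe_mulRight, mul_inv_cancel_right]
        calc ∑ x, F.lam x⁻¹ * F.ph a t * χ (x * F.io t)
            = F.ph a t * ∑ x, F.lam x⁻¹ * χ (x * F.io t) := by
              rw [Finset.mul_sum]
              apply Finset.sum_congr rfl
              intro x _; ring
          _ = _ := by rw [h3]; ring
      rw [Finset.sum_congr rfl fun z _ => h1 z, Finset.sum_const, Finset.card_univ, nsmul_eq_mul,
        Fintype.card_eq_nat_card]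
    have hGG : ∀ x, conv G G x = Nat.card F.V * Nat.card T * Nat.card F.V * G x := by
      intro x
      rw [hconvG G hGCF x]
      simp only [hG, Finset.mul_sum]
      apply Finset.sum_congr rfl
      intro z _
      rw [Finset.sum_eq_single 1]
      · rw [hphG, hδ]
        simp only [map_one, inv_one, mul_one, if_true]
        have : (z * x * z⁻¹)⁻¹ = z * x⁻¹ * z⁻¹ := by group
        rw [this]; ring
      · intro t _ ht
        rw [hphG, hδ]
        simp [ht]
      · intro h; exact absurd (Finset.mem_univ _) h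
    have hGχ : ∑ x, G x * χ x = Nat.card X * (Nat.card F.V * ψ 1) := by
      rw [← hψ1]
      simp only [hG, Finset.sum_mul]
      rw [Finset.sum_comm]
      have h1 : ∀ z : X, ∑ x, F.lam (z * x⁻¹ * z⁻¹) * χ x = ∑ x, F.lam x⁻¹ * χ x := by
        intro z
        rw [← sum_conj z (fun x => F.lam x⁻¹ * χ x)]
        apply Finset.sum_congr rfl
        intro x _
        rw [hI.cf]
        congr 2
        group
      rw [Finset.sum_congr rfl fun z _ => h1 z, Finset.sum_const, Finset.card_univ, nsmul_eq_mul,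
        Fintype.card_eq_nat_card]
    have hGχne : ∑ x, G x * χ x ≠ 0 := by
      rw [hGχ]
      exact mul_ne_zero hXne (mul_ne_zero hn hψ1ne)
    -- degree
    have hdeg : χ 1 = F.ix * ψ 1 := by
      have h1 := hI.mul G G hGCF hGCF
      have h2 : ∑ x, conv G G x * χ x = Nat.card F.V * Nat.card T * Nat.card F.V *
          ∑ x, G x * χ x := by
        rw [Finset.mul_sum]
        apply Finset.sum_congr rfl
        intro x _
        rw [hGG]; ring
      rw [h2] at h1
      have h3 : (∑ x, G x * χ x) * (Nat.card F.V * Nat.card T * Nat.card F.V * χ 1) =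
          (∑ x, G x * χ x) * ∑ x, G x * χ x := by
        linear_combination h1
      have h4 := mul_left_cancel₀ hGχne h3
      rw [hGχ, hcardX] at h4
      have h5 : ((Nat.card F.V : ℂ) * Nat.card T * Nat.card F.V) * χ 1 =
          ((Nat.card F.V : ℂ) * Nat.card T * Nat.card F.V) * (F.ix * ψ 1) := by
        rw [h4]; ring
      exact mul_left_cancel₀ (mul_ne_zero (mul_ne_zero hn hTne) hn) h5
    -- (*)
    have hstar : ∀ a : X → ℂ, CF a → ∑ x, a x * χ x = F.ix * ∑ t, F.ph a t * ψ t := by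
      intro a ha
      have h1 := hI.mul a G ha hGCF
      rw [hsumG a ha, hGχ, hdeg] at h1
      have h2 : ((Nat.card X : ℂ) * Nat.card F.V * ψ 1) * (∑ x, a x * χ x) =
          ((Nat.card X : ℂ) * Nat.card F.V * ψ 1) * (F.ix * ∑ t, F.ph a t * ψ t) := by
        linear_combination -h1
      exact mul_left_cancel₀ (mul_ne_zero (mul_ne_zero hXne hn) hψ1ne) h2
    have hχeq : χ = F.ind ψ := by
      apply hI.cf.ext_pair (b1 ψ)
      intro a ha
      rw [hstar a ha, b3 ψ a ha]
    refine ⟨ψ, hC2 T ψ ?_, hχeq⟩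
    refine ⟨?_, hψCF, ?_, ?_⟩
    · obtain ⟨r, hr, hr1⟩ := hI.pos
      refine ⟨r / F.ix, div_pos hr (by exact_mod_cast a1), ?_⟩
      rw [hdeg] at hr1
      push_cast
      rw [← hr1]; field_simp
    · intro α β hα hβ
      set a : X → ℂ := fun x => F.ind (fun t => α t⁻¹) x⁻¹ with ha
      set b : X → ℂ := fun x => F.ind (fun t => β t⁻¹) x⁻¹ with hb
      have haCF : CF a := (b1 _).inv'
      have hbCF : CF b := (b1 _).inv'
      have hpa : F.ph a = fun t => Nat.card F.V * α t := by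
        funext t
        rw [ha, rec' _ hα.inv' t, inv_inv]
      have hpb : F.ph b = fun t => Nat.card F.V * β t := by
        funext t
        rw [hb, rec' _ hβ.inv' t, inv_inv]
      have h1 := hI.mul a b haCF hbCF
      rw [hstar _ (haCF.conv' hbCF), hstar a haCF, hstar b hbCF, hF2 ℓ X T F a b haCF hbCF, hpa,
        hpb, hdeg] at h1
      have h2 : ∑ t, conv (fun t => (Nat.card F.V : ℂ) * α t) (fun t => (Nat.card F.V : ℂ) * β t) t
          * ψ t = Nat.card F.V * Nat.card F.V * ∑ t, conv α β t * ψ t := by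
        rw [Finset.mul_sum]
        apply Finset.sum_congr rfl
        intro t _
        simp only [conv, Finset.mul_sum, Finset.sum_mul]
        apply Finset.sum_congr rfl
        intro s _
        ring
      have h3 : ∑ t, (Nat.card F.V : ℂ) * α t * ψ t = Nat.card F.V * ∑ t, α t * ψ t := by
        rw [Finset.mul_sum]
        apply Finset.sum_congr rfl
        intro t _; ring
      have h4 : ∑ t, (Nat.card F.V : ℂ) * β t * ψ t = Nat.card F.V * ∑ t, β t * ψ t := by
        rw [Finset.mul_sum]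
        apply Finset.sum_congr rfl
        intro t _; ring
      rw [h2, h3, h4] at h1
      have h5 : ((F.ix : ℂ) * F.ix * Nat.card F.V * Nat.card F.V) *
          ((∑ t, conv α β t * ψ t) * ψ 1) =
          ((F.ix : ℂ) * F.ix * Nat.card F.V * Nat.card F.V) *
          ((∑ t, α t * ψ t) * ∑ t, β t * ψ t) := by
        linear_combination h1
      exact mul_left_cancel₀ (mul_ne_zero (mul_ne_zero (mul_ne_zero hix hix) hn) hn) h5
    · have h1 := hI.norm
      rw [hχeq, normcomp ψ hψCF, hcardX] at h1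
      have h2 : ((F.ix : ℂ) * Nat.card F.V) * ∑ t, ψ t * ψ t⁻¹ =
          ((F.ix : ℂ) * Nat.card F.V) * Nat.card T := by
        linear_combination h1
      exact mul_left_cancel₀ (mul_ne_zero hix hn) h2

end AMx
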