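import Pool.Agent.H4.AMX.Main
import Pool.Agent.H4.AMX.F3
import Pool.Agent.H73.AM.C1
import Pool.Agent.H73.AM.C23
import Pool.Agent.H73.AM.P1
import Pool.Agent.H36.AM.F0
import Pool.Agent.H36.AM.F1
import Pool.Agent.H36.AM.F2
import Pool.Agent.H16.AMX.F4
import Pool.Agent.H16.AMX.P2
import Pool.Agent.H14.AMX.L0
import Pool.Agent.H14.AMX.L1
import Pool.Agent.H14.AMX.B5
import Pool.Agent.H91.AM.L3
import Pool.Agent.H91.AM.B1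
import Pool.Agent.H97.AMX.B4
import Pool.Agent.H97.AMX.B7
import Pool.Agent.H19.AMX.P3
import Pool.Agent.H59.AMX.X2

/-!
# The final theorem
-/

open scoped Classical commutatorElement

namespace AMx

/-- `R 1 (k₀(b)) (k₀(B))` for all blocks of all finite groups -/
def InAll (ℓ : ℕ) (𝔪 : Ideal (integralClosure ℤ ℂ)) (R : ℝ → ℕ → ℕ → Prop) : Prop :=
  ∀ (G : Type) [Group G] [Fintype G], AMrel ℓ 𝔪 (R 1) G

/-- for all `ε > 0`: `R (e^(εN)) (k₀(b)) (k₀(B))` for all blocks of `Y N`, for all large `N` -/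
def Along (ℓ : ℕ) (𝔪 : Ideal (integralClosure ℤ ℂ)) (R : ℝ → ℕ → ℕ → Prop) (p : ℕ)
    (Y : (N : ℕ) → Subgroup (XN p N)) : Prop :=
  ∀ ε : ℝ, 0 < ε → ∃ N₀ : ℕ, ∀ N, N₀ ≤ N → ∀ [Fintype (Y N)],
    AMrel ℓ 𝔪 (R (Real.exp (ε * N))) (Y N)

/-- for all `ε > 0`: `R (|H|^ε) (k₀(b)) (k₀(B))` for all blocks of all large perfect groups `H` -/
def InPerfect (ℓ : ℕ) (𝔪 : Ideal (integralClosure ℤ ℂ)) (R : ℝ → ℕ → ℕ → Prop) : Prop :=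
  ∀ ε : ℝ, 0 < ε → ∃ n₀ : ℕ, ∀ (H : Type) [Group H] [Fintype H], Group.IsPerfect H →
    n₀ ≤ Nat.card H → AMrel ℓ 𝔪 (R ((Nat.card H : ℝ) ^ ε)) H

/-- `a ≤ c b` -/
def Le (c : ℝ) (a b : ℕ) : Prop := (a : ℝ) ≤ c * b

/-- `b ≤ c a` -/
def Ge (c : ℝ) (a b : ℕ) : Prop := (b : ℝ) ≤ c * a

/-- the final statement with named parts -/
def T_FINAL : Prop := ∀ (ℓ p : ℕ) [Fact ℓ.Prime] [Fact p.Prime], ℓ ≠ p → p ≠ 2 →
  ∀ (𝔪 : Ideal (integralClosure ℤ ℂ)), 𝔪.IsMaximal → (ℓ : integralClosure ℤ ℂ) ∈ 𝔪 →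
  ∀ (Y : (N : ℕ) → Subgroup (XN p N)), (∀ N, commutator (XN p N) ≤ Y N) →
  (∀ (G : Type) [Group G] [Fintype G] [Fintype (Y (2 * Nat.card G))] (P : ℕ → ℕ → Prop),
    AMrel ℓ 𝔪 P (Y (2 * Nat.card G)) → AMrel ℓ 𝔪 P G) ∧
  [InAll ℓ 𝔪 Le, Along ℓ 𝔪 Le p Y, InPerfect ℓ 𝔪 Le].TFAE ∧
  [InAll ℓ 𝔪 Ge, Along ℓ 𝔪 Ge p Y, InPerfect ℓ 𝔪 Ge].TFAE ∧
  ∀ N, 5 ≤ N → Group.IsPerfect (commutator (XN p N))

theorem final_of (hB7 : T_B7) (hP4 : T_P4) (hX1 : T_X1N) (hX2 : T_X2N) : T_FINAL := by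
  intro ℓ p _ _ hlp hp2 𝔪 hm hl Y hY
  obtain ⟨m2, m3, m4⟩ := main hB7 hP4 hX1 hX2 ℓ p hlp hp2 𝔪 hm hl
  have hone : ∀ (N : ℕ) (ε : ℝ), 0 < ε → (1 : ℝ) ≤ Real.exp (ε * N) := fun N ε hε =>
    Real.one_le_exp (mul_nonneg hε.le (Nat.cast_nonneg N))
  have hone' : ∀ (H : Type) [Group H] [Fintype H] (ε : ℝ), 0 < ε →
      (1 : ℝ) ≤ (Nat.card H : ℝ) ^ ε := by
    intro H _ _ ε hε
    apply Real.one_le_rpow _ hε.le
    have : 0 < Nat.card H := Nat.card_pos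
    exact_mod_cast this
  refine ⟨?_, ?_, ?_, fun N hN => ⟨hX2 p N hN⟩⟩
  · intro G _ _ _ P h
    have h2 := hX1 ℓ p hlp hp2 G (2 ^ 0)
    rw [pow_zero, mul_one] at h2
    have h3 := hB7 ℓ 𝔪 hm hl _ _ _ (h2 (Y (2 * Nat.card G)) (hY _)) h
    have h4 := hP4 ℓ 𝔪 hm hl G P 0 h3
    simpa using h4
  · tfae_have 1 → 2 := by
      intro h ε hε
      refine ⟨0, fun N _ _ => AMrel.mono ?_ (h (Y N))⟩
      intro a b hab
      exact hab.trans (mul_le_mul_of_nonneg_right (hone N ε hε) (Nat.cast_nonneg b))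
    tfae_have 2 → 1 := (m2 Y hY).1
    tfae_have 1 → 3 := by
      intro h ε hε
      refine ⟨0, fun H _ _ _ _ => AMrel.mono ?_ (h H)⟩
      intro a b hab
      exact hab.trans (mul_le_mul_of_nonneg_right (hone' H ε hε) (Nat.cast_nonneg b))
    tfae_have 3 → 1 := by
      intro h
      refine m3 (fun ε hε => ?_)
      obtain ⟨n₀, hn₀⟩ := h ε hε
      exact ⟨n₀, fun H _ _ hH hn => hn₀ H ⟨hH⟩ hn⟩
    tfae_finish
  · tfae_have 1 → 2 := by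
      intro h ε hε
      refine ⟨0, fun N _ _ => AMrel.mono ?_ (h (Y N))⟩
      intro a b hab
      exact hab.trans (mul_le_mul_of_nonneg_right (hone N ε hε) (Nat.cast_nonneg a))
    tfae_have 2 → 1 := (m2 Y hY).2
    tfae_have 1 → 3 := by
      intro h ε hε
      refine ⟨0, fun H _ _ _ _ => AMrel.mono ?_ (h H)⟩
      intro a b hab
      exact hab.trans (mul_le_mul_of_nonneg_right (hone' H ε hε) (Nat.cast_nonneg a))
    tfae_have 3 → 1 := by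
      intro h
      refine m4 (fun ε hε => ?_)
      obtain ⟨n₀, hn₀⟩ := h ε hε
      exact ⟨n₀, fun H _ _ hH hn => hn₀ H ⟨hH⟩ hn⟩
    tfae_finish

theorem final_of' (hB2 : T_B2) (hB3 : T_B3) (hB6 : T_B6) (hX1 : T_X1) : T_FINAL := by
  have hF0 : T_F0 := Pool.Agent.H36.AM.f0
  have hF1 : T_F1 := Pool.Agent.H36.AM.f1
  have hF2 : T_F2 := Pool.Agent.H36.AM.f2
  have hF3 : T_F3 := f3 C1 C2 hF0 hF1 hF2
  have hB4 : T_B4 := b4 C1 hF0 hF1 hF3 hB2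
  have hB7 : T_B7 := b7 hF3 hB3 hB4 b5 hB6
  have hP2 : T_P2 := p2 C1 l0 l2 P1
  have hP3 : T_P3 := p3 C1 C2 l0 P1 hP2
  exact final_of hB7 (p4 hB7 hP3) (x1N hX1) (x2N x2)

end AMx
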