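import Pool.Agent.H4.AMX.XN

/-!
# Assembly of the main theorem
-/

open scoped Classical commutatorElement

namespace AMx

/-- numerics -/
theorem num_core (a b : ℕ) (c : ℝ) (hc : 0 < c) (hab : ¬ ((a : ℝ) ≤ 1 * b)) :
    ∃ ε : ℝ, 0 < ε ∧ ∀ M : ℕ, 1 ≤ M →
      ¬ (((a ^ M : ℕ) : ℝ) ≤ Real.exp (ε * (c * M)) * ((b ^ M : ℕ) : ℝ)) := by
  rw [one_mul, not_le] at hab
  have ha : (0 : ℝ) < a := lt_of_le_of_lt (Nat.cast_nonneg b) hab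
  rcases Nat.eq_zero_or_pos b with hb | hb
  · refine ⟨1, one_pos, fun M hM h => ?_⟩
    subst hb
    rw [zero_pow (by omega), Nat.cast_zero, mul_zero, Nat.cast_pow] at h
    have : (0 : ℝ) < (a : ℝ) ^ M := pow_pos ha M
    linarith
  · have hb' : (0 : ℝ) < b := by exact_mod_cast hb
    have hlog : 0 < Real.log (a / b) := Real.log_pos ((one_lt_div hb').mpr hab)
    refine ⟨Real.log (a / b) / (2 * c), by positivity, fun M hM h => ?_⟩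
    have hM' : (0 : ℝ) < M := by exact_mod_cast hM
    have e1 : Real.log (a / b) / (2 * c) * (c * M) = (Real.log (a / b) / 2) * M := by
      field_simp
    rw [e1] at h
    push_cast at h
    have h2 : ((a : ℝ) / b) ^ M ≤ Real.exp ((Real.log (a / b) / 2) * M) := by
      rw [div_pow, div_le_iff₀ (pow_pos hb' M)]
      exact h
    have h3 : ((a : ℝ) / b) ^ M = Real.exp (Real.log (a / b) * M) := by
      rw [mul_comm, Real.exp_nat_mul, Real.exp_log (div_pos ha hb')]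
    rw [h3, Real.exp_le_exp] at h2
    nlinarith

variable {ℓ p : ℕ} [Fact ℓ.Prime] [Fact p.Prime] {𝔪 : Ideal (integralClosure ℤ ℂ)}

theorem AMrel.mono {P P' : ℕ → ℕ → Prop} (h : ∀ a b, P a b → P' a b) {G : Type} [Group G]
    [Fintype G] (hP : AMrel ℓ 𝔪 P G) : AMrel ℓ 𝔪 P' G :=
  fun D χ ψ hB => h _ _ (hP D χ ψ hB)

theorem part1 (hB7 : T_B7) (hP4 : T_P4) (hX1 : T_X1N) (hlp : ℓ ≠ p) (hp2 : p ≠ 2)
    (hm : 𝔪.IsMaximal) (hl : (ℓ : integralClosure ℤ ℂ) ∈ 𝔪)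
    (Pc : ℝ → ℕ → ℕ → Prop)
    (hnum : ∀ (a b : ℕ) (c : ℝ), 0 < c → ¬ Pc 1 a b → ∃ ε : ℝ, 0 < ε ∧ ∀ M : ℕ, 1 ≤ M →
      ¬ Pc (Real.exp (ε * (c * M))) (a ^ M) (b ^ M))
    (Y : (N : ℕ) → Subgroup (XN p N)) (hY : ∀ N, commutator (XN p N) ≤ Y N)
    (h : ∀ ε : ℝ, 0 < ε → ∃ N₀ : ℕ, ∀ N, N₀ ≤ N → ∀ [Fintype (Y N)],
      AMrel ℓ 𝔪 (Pc (Real.exp (ε * N))) (Y N))
    (G : Type) [Group G] [Fintype G] : AMrel ℓ 𝔪 (Pc 1) G := by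
  intro D χ ψ hB
  by_contra hcon
  have hcard : 0 < Nat.card G := Nat.card_pos
  obtain ⟨ε, hε, hM⟩ := hnum _ _ (2 * Nat.card G) (by positivity) hcon
  obtain ⟨N₀, hN₀⟩ := h ε hε
  obtain ⟨k, hk⟩ : ∃ k : ℕ, N₀ ≤ 2 * (Nat.card G * 2 ^ k) := by
    refine ⟨N₀, ?_⟩
    have h1 : N₀ < 2 ^ N₀ := Nat.lt_two_pow_self
    have h2 : 1 * 2 ^ N₀ ≤ Nat.card G * 2 ^ N₀ := Nat.mul_le_mul_right _ hcard
    omega
  letI : Fintype (Y (2 * (Nat.card G * 2 ^ k))) := Fintype.ofFinite _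
  have h1 := hN₀ _ hk
  have h2 := hX1 ℓ p hlp hp2 G (2 ^ k) (Y (2 * (Nat.card G * 2 ^ k))) (hY _)
  have h3 := hB7 ℓ 𝔪 hm hl _ _ _ h2 h1
  have h4 := hP4 ℓ 𝔪 hm hl G _ k h3
  have h5 := h4 D χ ψ hB
  apply hM (2 ^ k) Nat.one_le_two_pow
  have e : ε * (2 * (Nat.card G : ℝ) * ((2 ^ k : ℕ) : ℝ)) =
      ε * ((2 * (Nat.card G * 2 ^ k) : ℕ) : ℝ) := by
    push_cast
    ring
  rw [e]
  exact h5

theorem commutator_pi_top (H : Type) [Group H] (n : ℕ) (h : commutator H = ⊤) :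
    commutator (Fin n → H) = ⊤ := by
  rw [commutator_def] at h ⊢
  have := Subgroup.commutator_pi_pi_of_finite (η := Fin n) (Gs := fun _ => H)
    (fun _ => (⊤ : Subgroup H)) (fun _ => (⊤ : Subgroup H))
  rw [h] at this
  rw [Subgroup.pi_top] at this
  exact this

theorem part2a (hP4 : T_P4)
    (hm : 𝔪.IsMaximal) (hl : (ℓ : integralClosure ℤ ℂ) ∈ 𝔪)
    (Pc : ℝ → ℕ → ℕ → Prop)
    (hnum : ∀ (a b : ℕ) (c : ℝ), 0 < c → ¬ Pc 1 a b → ∃ ε : ℝ, 0 < ε ∧ ∀ M : ℕ, 1 ≤ M →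
      ¬ Pc (Real.exp (ε * (c * M))) (a ^ M) (b ^ M))
    (h : ∀ ε : ℝ, 0 < ε → ∃ n₀ : ℕ, ∀ (H : Type) [Group H] [Fintype H], commutator H = ⊤ →
      n₀ ≤ Nat.card H → AMrel ℓ 𝔪 (Pc ((Nat.card H : ℝ) ^ ε)) H)
    (H : Type) [Group H] [Fintype H] (hH : commutator H = ⊤) (hH2 : 2 ≤ Nat.card H) :
    AMrel ℓ 𝔪 (Pc 1) H := by
  intro D χ ψ hB
  by_contra hcon
  have hlog : 0 < Real.log (Nat.card H) := Real.log_pos (by exact_mod_cast hH2)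
  obtain ⟨ε, hε, hM⟩ := hnum _ _ (Real.log (Nat.card H)) hlog hcon
  obtain ⟨n₀, hn₀⟩ := h ε hε
  have hcardk : Nat.card (Fin (2 ^ n₀) → H) = Nat.card H ^ 2 ^ n₀ := by
    rw [Nat.card_pi]; simp
  have hk : n₀ ≤ Nat.card (Fin (2 ^ n₀) → H) := by
    rw [hcardk]
    have h1 : n₀ < 2 ^ n₀ := Nat.lt_two_pow_self
    have h2 : 2 ^ n₀ < 2 ^ 2 ^ n₀ := Nat.lt_two_pow_self
    have h3 : 2 ^ 2 ^ n₀ ≤ Nat.card H ^ 2 ^ n₀ := Nat.pow_le_pow_left hH2 _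
    omega
  have h1 := hn₀ (Fin (2 ^ n₀) → H) (commutator_pi_top H _ hH) hk
  have h4 := hP4 ℓ 𝔪 hm hl H _ n₀ h1
  have h5 := h4 D χ ψ hB
  apply hM (2 ^ n₀) Nat.one_le_two_pow
  have e : Real.exp (ε * (Real.log (Nat.card H) * ((2 ^ n₀ : ℕ) : ℝ))) =
      (Nat.card (Fin (2 ^ n₀) → H) : ℝ) ^ ε := by
    rw [hcardk]
    push_cast
    have hpos : (0 : ℝ) < Nat.card H := by
      have : 0 < Nat.card H := by omega
      exact_mod_cast this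
    rw [Real.rpow_def_of_pos (pow_pos hpos _), Real.log_pow]
    push_cast
    congr 1
    ring
  rw [e]
  exact h5

theorem part2 (hB7 : T_B7) (hP4 : T_P4) (hX1 : T_X1N) (hX2 : T_X2N) (hlp : ℓ ≠ p) (hp2 : p ≠ 2)
    (hm : 𝔪.IsMaximal) (hl : (ℓ : integralClosure ℤ ℂ) ∈ 𝔪)
    (Pc : ℝ → ℕ → ℕ → Prop)
    (hmono : ∀ (a b : ℕ) (c c' : ℝ), c ≤ c' → Pc c a b → Pc c' a b)
    (hnum : ∀ (a b : ℕ) (c : ℝ), 0 < c → ¬ Pc 1 a b → ∃ ε : ℝ, 0 < ε ∧ ∀ M : ℕ, 1 ≤ M →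
      ¬ Pc (Real.exp (ε * (c * M))) (a ^ M) (b ^ M))
    (h : ∀ ε : ℝ, 0 < ε → ∃ n₀ : ℕ, ∀ (H : Type) [Group H] [Fintype H], commutator H = ⊤ →
      n₀ ≤ Nat.card H → AMrel ℓ 𝔪 (Pc ((Nat.card H : ℝ) ^ ε)) H)
    (G : Type) [Group G] [Fintype G] : AMrel ℓ 𝔪 (Pc 1) G := by
  have hcard : 0 < Nat.card G := Nat.card_pos
  have hN : 5 ≤ 2 * (Nat.card G * 2 ^ 2) := by omega
  letI : Fintype (commutator (XN p (2 * (Nat.card G * 2 ^ 2)))) := Fintype.ofFinite _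
  have h1 := part2a hP4 hm hl Pc hnum h (commutator (XN p (2 * (Nat.card G * 2 ^ 2))))
    (hX2 p _ hN) (card_PN p _ hN)
  have h2 := hX1 ℓ p hlp hp2 G (2 ^ 2) (commutator (XN p (2 * (Nat.card G * 2 ^ 2)))) le_rfl
  have h3 := hB7 ℓ 𝔪 hm hl _ _ _ h2 h1
  have h4 := hP4 ℓ 𝔪 hm hl G _ 2 h3
  refine AMrel.mono ?_ h4
  intro a b hab
  by_contra hcon
  obtain ⟨ε, hε, hM⟩ := hnum a b 1 one_pos hcon
  apply hM (2 ^ 2) (by norm_num)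
  exact hmono _ _ _ _ (Real.one_le_exp (by positivity)) hab

/-- the main theorem for the inequality `k₀(b) ≤ k₀(B)` and its reverse -/
theorem main (hB7 : T_B7) (hP4 : T_P4) (hX1 : T_X1N) (hX2 : T_X2N) (ℓ p : ℕ) [Fact ℓ.Prime]
    [Fact p.Prime] (hlp : ℓ ≠ p) (hp2 : p ≠ 2) (𝔪 : Ideal (integralClosure ℤ ℂ))
    (hm : 𝔪.IsMaximal) (hl : (ℓ : integralClosure ℤ ℂ) ∈ 𝔪) :
    (∀ Y : (N : ℕ) → Subgroup (XN p N), (∀ N, commutator (XN p N) ≤ Y N) →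
      ((∀ ε : ℝ, 0 < ε → ∃ N₀ : ℕ, ∀ N, N₀ ≤ N → ∀ [Fintype (Y N)],
          AMle ℓ 𝔪 (Real.exp (ε * N)) (Y N)) →
        ∀ (G : Type) [Group G] [Fintype G], AMle ℓ 𝔪 1 G) ∧
      ((∀ ε : ℝ, 0 < ε → ∃ N₀ : ℕ, ∀ N, N₀ ≤ N → ∀ [Fintype (Y N)],
          AMge ℓ 𝔪 (Real.exp (ε * N)) (Y N)) →
        ∀ (G : Type) [Group G] [Fintype G], AMge ℓ 𝔪 1 G)) ∧
    ((∀ ε : ℝ, 0 < ε → ∃ n₀ : ℕ, ∀ (H : Type) [Group H] [Fintype H], commutator H = ⊤ →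
        n₀ ≤ Nat.card H → AMle ℓ 𝔪 ((Nat.card H : ℝ) ^ ε) H) →
      ∀ (G : Type) [Group G] [Fintype G], AMle ℓ 𝔪 1 G) ∧
    ((∀ ε : ℝ, 0 < ε → ∃ n₀ : ℕ, ∀ (H : Type) [Group H] [Fintype H], commutator H = ⊤ →
        n₀ ≤ Nat.card H → AMge ℓ 𝔪 ((Nat.card H : ℝ) ^ ε) H) →
      ∀ (G : Type) [Group G] [Fintype G], AMge ℓ 𝔪 1 G) := by
  have hmle : ∀ (a b : ℕ) (c c' : ℝ), c ≤ c' → (a : ℝ) ≤ c * b → (a : ℝ) ≤ c' * b :=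
    fun a b c c' hc h => h.trans (mul_le_mul_of_nonneg_right hc (Nat.cast_nonneg b))
  refine ⟨?_, ?_, ?_⟩
  · intro Y hY
    refine ⟨?_, ?_⟩
    · intro h G _ _
      exact part1 hB7 hP4 hX1 hlp hp2 hm hl (fun c a b => (a : ℝ) ≤ c * b)
        (fun a b c hc hab => num_core a b c hc hab) Y hY h G
    · intro h G _ _
      exact part1 hB7 hP4 hX1 hlp hp2 hm hl (fun c a b => (b : ℝ) ≤ c * a)
        (fun a b c hc hab => num_core b a c hc hab) Y hY h G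
  · intro h G _ _
    exact part2 (p := p) hB7 hP4 hX1 hX2 hlp hp2 hm hl (fun c a b => (a : ℝ) ≤ c * b)
      (fun a b c c' hc h => hmle a b c c' hc h)
      (fun a b c hc hab => num_core a b c hc hab) h G
  · intro h G _ _
    exact part2 (p := p) hB7 hP4 hX1 hX2 hlp hp2 hm hl (fun c a b => (b : ℝ) ≤ c * a)
      (fun a b c c' hc h => hmle b a c c' hc h)
      (fun a b c hc hab => num_core b a c hc hab) h G

end AMx
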