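import Pool.Agent.H4.AM.Targets

/-!
# The group `F_p^(N^3) ⋊ S_N` as a concrete structure
-/

open scoped Classical commutatorElement

namespace AMx

/-- The elements of the group `F_p^(N^3) ⋊ S_N`: a cubical array over `ZMod p` and a
permutation. -/
@[ext]
structure XN (p N : ℕ) where
  /-- the array -/
  arr : Fin N → Fin N → Fin N → ZMod p
  /-- the permutation -/
  perm : Equiv.Perm (Fin N)

namespace XN

variable {p N : ℕ}

/-- multiplication: `(v, σ) (w, τ) = (v + σ w, σ τ)` -/
def mul (x y : XN p N) : XN p N :=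
  ⟨fun i j k => x.arr i j k + y.arr (x.perm.symm i) (x.perm.symm j) (x.perm.symm k),
    y.perm.trans x.perm⟩

/-- the neutral element -/
def one : XN p N := ⟨fun _ _ _ => 0, Equiv.refl _⟩

/-- the inverse -/
def inv (x : XN p N) : XN p N :=
  ⟨fun i j k => -x.arr (x.perm i) (x.perm j) (x.perm k), x.perm.symm⟩

theorem mul_assoc' (x y z : XN p N) : mul (mul x y) z = mul x (mul y z) := by
  ext i j k
  · simp [mul, add_assoc]
  · simp [mul]

theorem one_mul' (x : XN p N) : mul one x = x := by
  ext i j k
  · simp [mul, one]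
  · simp [mul, one]

theorem inv_mul' (x : XN p N) : mul (inv x) x = one := by
  ext i j k
  · simp [mul, one, inv]
  · simp [mul, one, inv]

instance : Mul (XN p N) := ⟨mul⟩
instance : One (XN p N) := ⟨one⟩
instance : Inv (XN p N) := ⟨inv⟩

instance (p N : ℕ) : Group (XN p N) := Group.ofLeftAxioms mul_assoc' one_mul' inv_mul'

theorem mul_def (x y : XN p N) : x * y = mul x y := rfl

end XN

/-- the two descriptions agree -/
def eqv (p N : ℕ) : XG p N ≃* XN p N where
  toFun x := ⟨fun i j k => x.left.toAdd (i, j, k), x.right⟩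
  invFun x := ⟨Multiplicative.ofAdd (fun r => x.arr r.1 r.2.1 r.2.2), x.perm⟩
  left_inv x := by
    apply SemidirectProduct.ext
    · rfl
    · rfl
  right_inv x := rfl
  map_mul' x y := rfl

instance (p N : ℕ) [Fact p.Prime] : Finite (XN p N) := by
  haveI : Finite (XG p N) := Finite.of_equiv _ (SemidirectProduct.equivProd (φ := actX p N)).symm
  exact Finite.of_equiv _ (eqv p N).toEquiv

/-- transport along an isomorphism -/
noncomputable def Fr.transport {ℓ : ℕ} {X X' T : Type} [Group X] [Group X'] [Group T]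
    (F : Fr ℓ X T) (f : X ≃* X') : Fr ℓ X' T where
  V := F.V.comap f.symm.toMonoidHom
  norm := F.norm.comap _
  comm v hv w hw := by
    have h := F.comm _ hv _ hw
    apply f.symm.injective
    simpa using h
  cop := by
    have h : Nat.card (F.V.comap f.symm.toMonoidHom) = Nat.card F.V := by
      apply Nat.card_congr
      exact
        { toFun := fun x => ⟨f.symm x, x.2⟩
          invFun := fun x => ⟨f x, by
            show f.symm (f x) ∈ F.V
            rw [MulEquiv.symm_apply_apply]
            exact x.2⟩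
          left_inv := fun x => by simp
          right_inv := fun x => by simp }
    rw [h]
    exact F.cop
  lam x := F.lam (f.symm x)
  lam_off x hx := F.lam_off _ hx
  lam_one := by rw [map_one]; exact F.lam_one
  lam_mul v hv w hw := by rw [map_mul]; exact F.lam_mul _ hv _ hw
  io := f.toMonoidHom.comp F.io
  inj := f.injective.comp F.inj
  disj t ht := F.disj t (by
    have : f.symm (f (F.io t)) ∈ F.V := ht
    rwa [MulEquiv.symm_apply_apply] at this)
  stab x := by
    have h := F.stab (f.symm x)
    constructor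
    · intro hx
      obtain ⟨v, hv, t, ht⟩ := h.mp (fun v hv => by
        have := hx (f v) (by
          show f.symm (f v) ∈ F.V
          rw [MulEquiv.symm_apply_apply]
          exact hv)
        simpa using this)
      refine ⟨f v, ?_, t, ?_⟩
      · show f.symm (f v) ∈ F.V
        rw [MulEquiv.symm_apply_apply]
        exact hv
      · have h2 := congrArg f ht
        simpa using h2
    · rintro ⟨v, hv, t, rfl⟩ w hw
      have h3 := h.mpr ⟨f.symm v, hv, t, by simp⟩ (f.symm w) hw
      simpa using h3

/-- X1 for the concrete group -/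
def T_X1N : Prop := ∀ (ℓ p : ℕ) [Fact ℓ.Prime] [Fact p.Prime], ℓ ≠ p → p ≠ 2 →
  ∀ (H : Type) [Group H] [Fintype H] (m : ℕ) (Y : Subgroup (XN p (2 * (Nat.card H * m)))),
    commutator (XN p (2 * (Nat.card H * m))) ≤ Y → Nonempty (Fr ℓ Y (Fin m → H))

/-- X2 for the concrete group -/
def T_X2N : Prop := ∀ (p N : ℕ) [Fact p.Prime], 5 ≤ N →
  commutator (commutator (XN p N)) = ⊤

theorem map_commutator_eqv (p N : ℕ) :
    (commutator (XG p N)).map (eqv p N).toMonoidHom = commutator (XN p N) := by
  rw [commutator_def, commutator_def, Subgroup.map_commutator]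
  congr 1
  all_goals exact Subgroup.map_top_of_surjective _ (eqv p N).surjective

/-- the preimage of a subgroup under an isomorphism -/
def comapEquiv {X X' : Type} [Group X] [Group X'] (e : X ≃* X') (Y : Subgroup X') :
    Y.comap e.toMonoidHom ≃* Y where
  toFun x := ⟨e x, x.2⟩
  invFun y := ⟨e.symm y, by
    show e (e.symm y) ∈ Y
    rw [MulEquiv.apply_symm_apply]
    exact y.2⟩
  left_inv x := by simp
  right_inv y := by simp
  map_mul' x y := by
    apply Subtype.ext
    show e ((x * y : Y.comap e.toMonoidHom) : X) = e x * e y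
    rw [← map_mul]
    rfl

theorem x1N (h : T_X1) : T_X1N := by
  intro ℓ p _ _ hlp hp2 H _ _ m Y hY
  have h1 : commutator (XG p (2 * (Nat.card H * m))) ≤
      Y.comap (eqv p (2 * (Nat.card H * m))).toMonoidHom := by
    rw [← Subgroup.map_le_iff_le_comap, map_commutator_eqv]
    exact hY
  obtain ⟨F⟩ := h ℓ p hlp hp2 H m _ h1
  exact ⟨F.transport (comapEquiv (eqv p (2 * (Nat.card H * m))) Y)⟩

theorem x2N (h : T_X2) : T_X2N := by
  intro p N _ hN
  have h1 : Group.IsPerfect (commutator (XG p N)) := ⟨h p N hN⟩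
  have h2 : Group.IsPerfect ((commutator (XG p N)).map (eqv p N).toMonoidHom) := by
    exact Group.IsPerfect.ofSurjective
      (f := ((eqv p N).toMonoidHom.subgroupMap (commutator (XG p N))))
      (MonoidHom.subgroupMap_surjective _ _)
  rw [map_commutator_eqv] at h2
  exact h2.commutator_eq_top

theorem card_PN (p N : ℕ) [Fact p.Prime] (hN : 5 ≤ N) : 2 ≤ Nat.card (commutator (XN p N)) := by
  have hfin : Finite (commutator (XN p N)) := inferInstance
  have : Nontrivial (commutator (XN p N)) := by
    let i0 : Fin N := ⟨0, by omega⟩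
    let i1 : Fin N := ⟨1, by omega⟩
    let i2 : Fin N := ⟨2, by omega⟩
    have h01 : i0 ≠ i1 := by simp [i0, i1, Fin.ext_iff]
    have h02 : i0 ≠ i2 := by simp [i0, i2, Fin.ext_iff]
    have h12 : i1 ≠ i2 := by simp [i1, i2, Fin.ext_iff]
    let s : XN p N := ⟨fun _ _ _ => 0, Equiv.swap i0 i1⟩
    let t : XN p N := ⟨fun _ _ _ => 0, Equiv.swap i1 i2⟩
    have hmem : ⁅s, t⁆ ∈ commutator (XN p N) :=
      Subgroup.commutator_mem_commutator (Subgroup.mem_top _) (Subgroup.mem_top _)
    refine ⟨⟨⟨_, hmem⟩, 1, ?_⟩⟩
    intro h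
    have h1 : ⁅s, t⁆ = 1 := congrArg Subtype.val h
    rw [commutatorElement_eq_one_iff_mul_comm] at h1
    have h2 : (Equiv.swap i1 i2).trans (Equiv.swap i0 i1) =
        (Equiv.swap i0 i1).trans (Equiv.swap i1 i2) := congrArg XN.perm h1
    have h3 := congrArg (fun σ : Equiv.Perm (Fin N) => σ i2) h2
    simp only [Equiv.trans_apply, Equiv.swap_apply_right] at h3
    rw [Equiv.swap_apply_of_ne_of_ne (Ne.symm h02) (Ne.symm h12), Equiv.swap_apply_right] at h3
    exact h01 h3
  exact Finite.one_lt_card

end AMx
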